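import Pool.Agent.J4.H1.VN.Fam

/-!
# Isomorphisms of group von Neumann algebras which respect a conjugation invariant family of
subgroups with trivial intersection

`L2 G` is the Hilbert space `ℓ²(G)` with basis `delta g`, `lam` and `rho` are the left and the
right translations, and the group von Neumann algebra `L(G)` is the commutant of the right
translations: `InVN T` says that `T` belongs to it. An isomorphism `θ` of `L(Γ)` onto `L(Λ)` is
`θ(x) = U x U⁻¹` for a unitary operator `U` of `ℓ²(Γ)` onto `ℓ²(Λ)` (`VNIso Γ Λ`; for groups with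
infinite conjugacy classes every isomorphism is of this form). For a subgroup `H` the algebra `L(H)`
consists of the `x` in `L(Γ)` with `x δ₁` supported on `H` (`SuppOn`).

* `MapsAlg θ H K`: `θ(L(H)) = L(K)`. `Preserved θ H`: this holds for a subgroup `K` of `Λ`.
* `RelativelyIcc H`: each element of `Γ` other than `1` has infinitely many conjugates by elements
  of `H`.
* `GroupLike θ g`: `θ(u_g)` is a multiple of some `u_k`. `IsGroupIso θ`: `θ(u_g) = χ(g) u_{π(g)}` for
  all `g` in `Γ`, for an isomorphism of groups `π : Γ → Λ` and a character `χ` of `Γ`.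
* `conjSet g S`: the conjugate `g S g⁻¹`.
* `Rich Γ`: `Γ` contains a positive power of each elementary matrix; `NoScalar Γ`: `Γ` contains no
  scalar matrix other than `1`; `congSet Γ 𝔞`: the congruence subgroup of the elements `≡ 1 mod 𝔞`;
  `vecStab Γ j`, `covStab Γ j`, `lineStab Γ j`, `colineStab Γ j`: the stabilisers of `e_j`, of
  `e_j^*`, of the line `R e_j`, and of the line `R e_j^*` (for a field: of the hyperplane `e_j^* = 0`).

Proof of (A): `x = θ(u_g)` satisfies `x L(K) x⁻¹ ⊆ L(K')`. The restriction of `x` to a double coset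
`K' b K` satisfies the same relations, hence is a multiple of `x`, since `L(K)` has trivial relative
commutant. The mass of `x` is the same on all the right cosets of `K'` in `K' b K`, so there are
finitely many, the stabiliser in `K` of `K' b` is again relatively icc, and the same argument applies
to the restriction of `x` to `K' b`.
-/

set_option autoImplicit false

namespace Pool.Agent.Results.MP_0f6f3f_an.ConjugationInvariantFamilies

open Pool.Agent.K4H1.VN Pool.Agent.J4.H1.VN
open Pool.Agent.Y276.Rig (IsIcc)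

/-- **(1)** Let `θ` be an isomorphism of `L(Γ)` onto `L(Λ)`.
(A) If `θ(L(H)) = L(K)`, `θ(L(H')) = L(K')`, `H` is relatively icc and `g H g⁻¹ ≤ H'`, then `θ(u_g)`
is supported on a coset `K' b` with `b K b⁻¹ ≤ K'`: it is `v u_b` for a unitary `v` of `L(K')`.
(B) Let `g` be in `Γ` and `F` a family of preserved subgroups with trivial intersection such that
for each `H'` in `F` there is a preserved, relatively icc `H` with `g H g⁻¹ ≤ H'`. Then `θ(u_g)` is a
multiple of a group element.
(C) Let `F` be a family of preserved, relatively icc subgroups with trivial intersection such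
that for all `g` in `Γ` and `H'` in `F` there is `H` in `F` with `g H g⁻¹ ≤ H'` (for instance a
conjugation invariant family; or, for a directed family: a neighbourhood basis of `1` in a Hausdorff
group topology of `Γ`). Then `θ(u_g) = χ(g) u_{π(g)}` for all `g`.
(D) The same holds if `Γ` is icc and `F` is a family of preserved normal subgroups of finite index
with trivial intersection.
(E) The same holds if all conjugates of one relatively icc subgroup `H` are preserved and have
trivial intersection.

**(2)** Let `R` be a domain of characteristic `0`, `n ≥ 3`, and `Γ` a subgroup of `SL_n(R)` which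
contains a positive power of each elementary matrix and no scalar matrix other than `1`, and `θ` an
isomorphism of `L(Γ)` onto `L(Λ)`. Then `θ(u_g) = χ(g) u_{π(g)}` for all `g` if
(F) `θ` maps the algebras of the congruence subgroups `Γ(𝔞)`, `𝔞` in `A`, onto algebras of
subgroups, for a set `A` of ideals `≠ 0` with intersection `0`; or if
(G) `θ` maps the algebras of all conjugates of `S` onto algebras of subgroups, `S` the stabiliser
of a vector `e_j`, or of `e_j^*`, or of a line `R e_j`, or of `R e_j^*`. -/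
theorem result :
    (∀ (Γ Λ : Type) [Group Γ] [Group Λ] (θ : VNIso Γ Λ),
      (∀ (H H' : Subgroup Γ) (K K' : Subgroup Λ) (g : Γ), MapsAlg θ (H : Set Γ) K →
        MapsAlg θ (H' : Set Γ) K' → RelativelyIcc (H : Set Γ) → (∀ h ∈ H, g * h * g⁻¹ ∈ H') →
          ∃ b : Λ, (∀ k ∈ K, b * k * b⁻¹ ∈ K') ∧ SuppOn (θ.map (lam g)) {y | y * b⁻¹ ∈ K'}) ∧
      (∀ (g : Γ) (F : Set (Subgroup Γ)),
        (∀ H' ∈ F, Preserved θ (H' : Set Γ) ∧ ∃ H : Subgroup Γ, Preserved θ (H : Set Γ) ∧
          RelativelyIcc (H : Set Γ) ∧ ∀ h ∈ H, g * h * g⁻¹ ∈ H') →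
        (∀ x : Γ, (∀ H' ∈ F, x ∈ H') → x = 1) → GroupLike θ g) ∧
      (∀ F : Set (Subgroup Γ),
        (∀ H ∈ F, Preserved θ (H : Set Γ) ∧ RelativelyIcc (H : Set Γ)) →
        (∀ x : Γ, (∀ H ∈ F, x ∈ H) → x = 1) →
        (∀ g : Γ, ∀ H' ∈ F, ∃ H ∈ F, ∀ h ∈ H, g * h * g⁻¹ ∈ H') → IsGroupIso θ) ∧
      (∀ F : Set (Subgroup Γ), IsIcc Γ →
        (∀ H ∈ F, Preserved θ (H : Set Γ) ∧ H.Normal ∧ H.FiniteIndex) →
        (∀ x : Γ, (∀ H ∈ F, x ∈ H) → x = 1) → IsGroupIso θ) ∧
      (∀ H : Subgroup Γ, RelativelyIcc (H : Set Γ) →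
        (∀ g, Preserved θ (conjSet g (H : Set Γ))) →
        (∀ x : Γ, (∀ g, x ∈ conjSet g (H : Set Γ)) → x = 1) → IsGroupIso θ)) ∧
    (∀ (R : Type) [CommRing R] [IsDomain R] [CharZero R] (I : Type) [Fintype I] [DecidableEq I]
      (Γ : Subgroup (Matrix.SpecialLinearGroup I R)) (Λ : Type) [Group Λ] (θ : VNIso Γ Λ),
      3 ≤ Fintype.card I → Rich Γ → NoScalar Γ →
        (∀ A : Set (Ideal R), (∀ 𝔞 ∈ A, 𝔞 ≠ ⊥ ∧ Preserved θ (congSet Γ 𝔞)) → sInf A = ⊥ →
          IsGroupIso θ) ∧
        (∀ (j : I) (S : Set Γ),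
          (S = vecStab Γ j ∨ S = covStab Γ j ∨ S = lineStab Γ j ∨ S = colineStab Γ j) →
          (∀ g : Γ, Preserved θ (conjSet g S)) → IsGroupIso θ)) := by
  refine ⟨fun Γ Λ _ _ θ => ⟨?_, ?_, ?_, ?_, ?_⟩, ?_⟩
  · intro H H' K K' g hH hH' hicc hg
    exact one_coset_iso hH hH' hicc hg
  · intro g F hF h1
    exact groupLike_of_family hF h1
  · intro F hF h1 hb
    exact iso_of_basis hF h1 hb
  · intro F hicc hF h1
    exact iso_of_finiteIndex hicc (fun H hH => ⟨(hF H hH).1, (hF H hH).2.2⟩) h1
      fun g H hH => ⟨H, hH, fun h hh => (hF H hH).2.1.conj_mem h hh g⟩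
  · intro H hH hF h1
    exact iso_of_conj hH hF h1
  · intro R _ _ _ I _ _ Γ Λ _ θ hI hΓ hS
    exact ⟨fun A hA h0 => iso_of_cong hI hΓ hS hA h0, fun j S hj h => iso_of_stab hI hΓ hS hj h⟩

end Pool.Agent.Results.MP_0f6f3f_an.ConjugationInvariantFamilies
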