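import Pool.Agent.J4.H1.VN.Prof4
import Pool.Agent.J4.H1.VN.SDefs5

/-!
# Isomorphisms of group von Neumann algebras which preserve the algebras of normal subgroups up to
unitary conjugacy: finite quotients and profinite completions

`L2 G` is the Hilbert space `ℓ²(G)` with basis `delta g`, `lam` and `rho` are the left and the
right translations, and the group von Neumann algebra `L(G)` is the commutant of the right
translations: `InVN T` says that `T` belongs to it. An isomorphism `θ` of `L(Γ)` onto `L(Λ)` is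
`θ(x) = U x U⁻¹` for a unitary operator `U` of `ℓ²(Γ)` onto `ℓ²(Λ)` (`VNIso Γ Λ`; for groups with
infinite conjugacy classes every isomorphism is of this form). For a subgroup `H` the algebra `L(H)`
consists of the `x` in `L(Γ)` with `x δ₁` supported on `H` (`SuppOn`).

* `MapsConj θ w H K`: `θ(L(H)) = w L(K) w⁻¹`. `ConjAlg θ H K`: this holds for a unitary `w` of
  `L(Λ)`. `PreservedUpToConj θ H`: this holds for a subgroup `K` of `Λ`.
* `RelativelyIcc H`: each element of `Γ` other than `1` has infinitely many conjugates by elements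
  of `H`; `IsIcc Γ`: the case `H = Γ`.
* `FollowsCosets θ w N φ`: `w⁻¹ θ(u_g) w` is supported on `φ⁻¹(g N)` for all `g` in `Γ`.
* `NormalSubgroups`, `UniqueUpToInner`, `CompatibleQuotients`, `SameProfiniteCompletion`,
  `CongruenceQuotients`: the assertions (A) - (E) (in `Pool.Agent.J4.H1.VN.SDefs5`).
* `completion` is the profinite completion of Mathlib.
* `Rich Γ`: `Γ` contains a positive power of each elementary matrix; `NoScalar Γ`: `Γ` contains no
  scalar matrix other than `1`; `congSet Γ 𝔞`: the congruence subgroup of the elements `≡ 1 mod 𝔞`.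

Proof of (B): let `v = w'⁻¹ w`. For `s` in `Λ` the unitary `v u_s v⁻¹` is supported on `φ'⁻¹(β(s))`,
`β` the composition of `φ` with `Γ/N → Γ/N'`. The mass of `v` on `φ'⁻¹(c)` is invariant under
`c ↦ β(s) c φ'(s)⁻¹`, so the stabiliser of a `c` with positive mass has finite index in `Λ`, and
`v⁻¹` times the part of `v` on `φ'⁻¹(c)` commutes with it, hence is a scalar. For (C) the set of
the possible `φ_i` is finite and the maps `Γ/N_i → Γ/N_j` carry it into the set of the possible
`φ_j`.
-/

set_option autoImplicit false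

namespace Pool.Agent.Results.MP_0f6f3f_an.FiniteQuotients

open Pool.Agent.K4H1.VN Pool.Agent.J4.H1.VN ProfiniteGrp.ProfiniteCompletion
open Pool.Agent.Y276.Rig (IsIcc)

/-- **(1)** Let `θ` be an isomorphism of `L(Γ)` onto `L(Λ)`.
(A) Let `N` be a normal relatively icc subgroup of `Γ` with `θ(L(N)) = w L(K) w⁻¹`, `K` a subgroup
of `Λ` and `w` a unitary of `L(Λ)`. Then `K` is normal and there is a surjective homomorphism
`φ : Λ → Γ/N` with kernel `K` such that `w⁻¹ θ(u_g) w` is supported on `φ⁻¹(g N)` for all `g`; for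
all subgroups `H ≥ N` the algebra `θ(L(H))` is `w L(K') w⁻¹` with `K' = φ⁻¹(H/N)`.
(B) Let `Γ` be icc, `N ≤ N'` normal subgroups, and `w`, `φ` as in (A) for `N`, `w'`, `φ'` as in (A)
for `N'`. Then there is `c` in `Γ/N'` such that `w'⁻¹ w` is supported on `φ'⁻¹(c)`, and the
composition of `φ` with `Γ/N → Γ/N'` is `c φ' c⁻¹`.
(C) Let `Γ` be icc and `N_i` a directed family of normal subgroups of finite index of `Γ` such that
each `θ(L(N_i))` is unitarily conjugate to the algebra of a subgroup of `Λ`, by a unitary depending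
on `i`. Then there are surjective homomorphisms `φ_i : Λ → Γ/N_i` as in (A), compatible with the maps
`Γ/N_i → Γ/N_j`.
(D) Let `Γ` be icc. If `θ` maps the algebra of each normal subgroup of finite index of `Γ` onto a
unitary conjugate of the algebra of a subgroup of `Λ`, and each normal subgroup of finite index of
`Λ` arises in this way from a subgroup of `Γ`, then the profinite completions of `Γ` and `Λ` are
isomorphic topological groups.

**(2)** (E) Let `R` be a domain of characteristic `0`, `n ≥ 3`, and `Γ` a subgroup of `SL_n(R)` which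
contains a positive power of each elementary matrix and no scalar matrix other than `1`, `θ` an
isomorphism of `L(Γ)` onto `L(Λ)` and `A` a directed set of ideals `𝔞` with `R/𝔞` finite such that
each `θ(L(Γ(𝔞)))` is unitarily conjugate to the algebra of a subgroup of `Λ`. Then there are
homomorphisms `ψ_𝔞 : Λ → SL_n(R/𝔞)`, compatible with the maps `R/𝔞 → R/𝔟`, with the same images as
`Γ`, and `θ(L(Γ(𝔞)))` is unitarily conjugate to the algebra of the kernel of `ψ_𝔞`. -/
theorem result :
    (∀ (Γ Λ : Type) [Group Γ] [Group Λ] (θ : VNIso Γ Λ),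
      NormalSubgroups θ ∧ UniqueUpToInner θ ∧ CompatibleQuotients θ ∧ SameProfiniteCompletion θ) ∧
    (∀ (R : Type) [CommRing R] [IsDomain R] [CharZero R] (I : Type) [Fintype I] [DecidableEq I]
      (Γ : Subgroup (Matrix.SpecialLinearGroup I R)) (Λ : Type) [Group Λ] (θ : VNIso Γ Λ)
      (A : Set (Ideal R)), 3 ≤ Fintype.card I → Rich Γ → NoScalar Γ →
        (∀ 𝔞 ∈ A, ∀ 𝔟 ∈ A, ∃ 𝔠 ∈ A, 𝔠 ≤ 𝔞 ∧ 𝔠 ≤ 𝔟) →
        (∀ 𝔞 ∈ A, Finite (R ⧸ 𝔞) ∧ PreservedUpToConj θ (congSet Γ 𝔞)) →
        CongruenceQuotients θ A) := by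
  refine ⟨fun Γ Λ _ _ θ => ⟨?_, ?_, ?_, ?_⟩, ?_⟩
  · intro N _ K w hN hw h
    obtain ⟨h1, φ, h2, h3, h4⟩ := quot_iso hN hw h
    exact ⟨h1, φ, h2, h3, h4, fun H hH => intermediate hN.isIcc hw h4 hH⟩
  · intro N N' _ _ h w w' φ φ' hicc hw hw' h1 h2
    exact two_steps hicc h hw hw' h1 h2
  · intro ι N _ _ hicc hdir hF
    obtain ⟨φ, h1, h2⟩ := inverse_limit hicc N hdir hF
    refine ⟨φ, fun i => ?_, h2⟩
    obtain ⟨h3, w, hw, h4⟩ := h1 i
    exact ⟨h3, w, hw, Good.mapsConj hicc hw h4, h4⟩
  · intro hicc h1 h2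
    exact profinite hicc h1 h2
  · intro R _ _ _ I _ _ Γ Λ _ θ A hI hΓ hS hdir hA
    exact congruence hI hΓ hS A hdir hA

end Pool.Agent.Results.MP_0f6f3f_an.FiniteQuotients
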