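import Pool.Agent.J4.H1.VN.Root

/-!
# Isomorphisms of group von Neumann algebras which map the algebras of root subgroups, or of
parabolic subgroups, onto algebras of subgroups

`L2 G` is the Hilbert space `ℓ²(G)` with basis `delta g`, `lam` and `rho` are the left and the
right translations, and the group von Neumann algebra `L(G)` is the commutant of the right
translations: `InVN T` says that `T` belongs to it. An isomorphism `θ` of `L(Γ)` onto `L(Λ)` is
`θ(x) = U x U⁻¹` for a unitary operator `U` of `ℓ²(Γ)` onto `ℓ²(Λ)` (`VNIso Γ Λ`; for groups with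
infinite conjugacy classes every isomorphism is of this form). For a subgroup `H` the algebra `L(H)`
consists of the `x` in `L(Γ)` with `x δ₁` supported on `H`.

* `Preserved θ H`: `θ(L(H)) = L(K)` for a subgroup `K` of `Λ`.
* `InLattice F H`: `H` is in the complete lattice of subgroups generated by the family `F`.
* `CommTriple A B C`: `B` and `C` commute, `B ∩ C = 1`, `A ∩ BC = 1`, and some `a` in `A` normalises
  `BC`, `[a, B] ≤ C` and no element of `B` other than `1` commutes with `a`. For instance, three root
  subgroups of the roots `α`, `β`, `α + β`, if `α + 2β` and `2α + β` are not roots.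
* `GroupLike θ g`: `θ(u_g)` is a multiple of some `u_k`. `IsGroupIso θ`: `θ(u_g) = χ(g) u_{π(g)}` for
  all `g` in `Γ`, for an isomorphism of groups `π : Γ → Λ` and a character `χ` of `Γ`.
* `Rich Γ`: `Γ` contains a positive power of each elementary matrix; `NoScalar Γ`: `Γ` contains no
  scalar matrix other than `1`.
* `rootSet Γ k l`: the elements `1 + r E_kl` of `Γ`; `vecStab Γ j`, `covStab Γ i`, `lineStab Γ j`,
  `colineStab Γ i`: the stabilisers of `e_j`, of `e_i^*`, of the line `R e_j`, and of the line `R e_i^*`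
  (for a field: of the hyperplane `e_i^* = 0`).
* `NearlyDiagonalUnipotent Γ`: the elements of `Γ` with at most one nonzero entry off the diagonal
  have diagonal entries `1`. This holds, for instance, for the subgroups of the principal congruence
  subgroups of level `m ≥ 3` of `SL_n(ℤ)`.

The main point is (1). Proof: let `K_A`, … be the subgroups of `Λ`. Since `x = θ(u_a)` is supported on
`K_A`, normalises `L(K_{BC})` and `K_A ∩ K_{BC} = 1`, a comparison of the coefficients of
`(x u_t x⁻¹) x = x u_t` shows that `x u_t x⁻¹` is a multiple of a group element, for each `t` in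
`K_{BC} = K_B K_C`. For `t` in `K_B` and `u = θ⁻¹(u_t)` this says that the function
`u'(b [a, b]) = u(b)` on the graph of `b ↦ [a, b]` is the restriction of a function `u₁(b) u₂(c)` on
`B × C` which vanishes off the graph, hence `u` has only one nonzero coefficient.
-/

set_option autoImplicit false

namespace Pool.Agent.Results.MP_0f6f3f_an.RootSubgroupAlgebras

open Pool.Agent.K4H1.VN Pool.Agent.J4.H1.VN
open Pool.Agent.Y276.Rig (IsIcc)

/-- **(A)** Let `Γ` be a group with infinite conjugacy classes, `θ` an isomorphism of `L(Γ)` onto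
`L(Λ)`, and `F` a family of subgroups `H` of `Γ` such that `θ(L(H))` is the algebra of a subgroup of
`Λ`. (1) If `A`, `B`, `C` in the complete lattice generated by `F` form a commutator triple, then all
`θ(u_b)`, `b` in `B`, are multiples of group elements. (2) If such `B` generate `Γ`, then
`θ(u_g) = χ(g) u_{π(g)}` for an isomorphism of groups `π` and a character `χ`.

**(B)** Let `R` be a domain of characteristic `0`, `n ≥ 3`, and `Γ` a subgroup of `SL_n(R)` which
contains a positive power of each elementary matrix and no scalar matrix other than `1`. Let `θ` be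
an isomorphism of `L(Γ)` onto `L(Λ)`. Then `θ(u_g) = χ(g) u_{π(g)}` as before in each of the following
cases: (1) the root subgroups of `Γ` are in the complete lattice generated by a family `F` as above;
(2) `θ` maps the algebras of the stabilisers of the coordinate vectors `e_j` and of the coordinate
functions `e_i^*` onto algebras of subgroups of `Λ`; (3) the same for the stabilisers of the
coordinate lines `R e_j` and `R e_i^*`, if `Γ` is `NearlyDiagonalUnipotent`. -/
theorem result :
    (∀ (Γ Λ : Type) [Group Γ] [Group Λ] (θ : VNIso Γ Λ), IsIcc Γ →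
      ∀ F : Set (Subgroup Γ), (∀ H ∈ F, Preserved θ H) →
        (∀ A B C : Subgroup Γ, InLattice F A → InLattice F B → InLattice F C →
          CommTriple A B C → ∀ b ∈ B, GroupLike θ b) ∧
        (Subgroup.closure {b : Γ | ∃ A B C : Subgroup Γ, InLattice F A ∧ InLattice F B ∧
          InLattice F C ∧ CommTriple A B C ∧ b ∈ B} = ⊤ → IsGroupIso θ)) ∧
    (∀ (R : Type) [CommRing R] [IsDomain R] [CharZero R] (I : Type) [Fintype I] [DecidableEq I]
      (Γ : Subgroup (Matrix.SpecialLinearGroup I R)) (Λ : Type) [Group Λ] (θ : VNIso Γ Λ),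
      3 ≤ Fintype.card I → Rich Γ → NoScalar Γ →
        (∀ F : Set (Subgroup Γ), (∀ H ∈ F, Preserved θ H) →
          (∀ k l : I, k ≠ l → InLattice F (rootSet Γ k l)) → IsGroupIso θ) ∧
        ((∀ i : I, Preserved θ (vecStab Γ i) ∧ Preserved θ (covStab Γ i)) → IsGroupIso θ) ∧
        (NearlyDiagonalUnipotent Γ →
          (∀ i : I, Preserved θ (lineStab Γ i) ∧ Preserved θ (colineStab Γ i)) →
            IsGroupIso θ)) := by
  refine ⟨?_, ?_⟩
  · intro Γ Λ _ _ θ hicc F hF
    obtain ⟨U₀, hU₀, h₀⟩ := exists_std_iso hicc θ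
    have hF₀ : ∀ H ∈ F, Pres U₀ H := fun H hH => preserved_std hU₀ h₀ (hF H hH)
    have key : ∀ A B C : Subgroup Γ, InLattice F A → InLattice F B → InLattice F C →
        CommTriple A B C → ∀ b ∈ B, ∃ c k, Glk U₀ b c k := fun A B C hA hB hC h b hb =>
      gl_of_commTriple hU₀ (pres_of_lattice hU₀ hF₀ hA) (pres_of_lattice hU₀ hF₀ hB)
        (pres_of_lattice hU₀ hF₀ hC) h hb
    refine ⟨fun A B C hA hB hC h b hb => groupLike_of hU₀ h₀ (key A B C hA hB hC h b hb),
      fun htop => isGroupIso_of hU₀ h₀ fun g => ?_⟩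
    have h1 : Subgroup.closure {b : Γ | ∃ A B C : Subgroup Γ, InLattice F A ∧ InLattice F B ∧
          InLattice F C ∧ CommTriple A B C ∧ b ∈ B} ≤ glSub hU₀ := by
      rw [Subgroup.closure_le]
      rintro b ⟨A, B, C, hA, hB, hC, h, hb⟩
      exact key A B C hA hB hC h b hb
    rw [htop] at h1
    exact h1 (Subgroup.mem_top g)
  · intro R _ _ _ I _ _ Γ Λ _ θ hI hΓ hS
    obtain ⟨U₀, hU₀, h₀⟩ := exists_std_iso (isIcc_of_rich hI hΓ hS) θ
    have key : ∀ F : Set (Subgroup Γ), (∀ H ∈ F, Preserved θ H) →
        (∀ k l : I, k ≠ l → InLattice F (rootSet Γ k l)) → IsGroupIso θ := by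
      intro F hF hR
      have hF₀ : ∀ H ∈ F, Pres U₀ H := fun H hH => preserved_std hU₀ h₀ (hF H hH)
      exact isGroupIso_of hU₀ h₀ (gl_of_roots hI hΓ hS hU₀ fun k l hkl =>
        pres_of_lattice hU₀ hF₀ (H := rootSub Γ k l hkl) (hR k l hkl))
    refine ⟨key, fun h => ?_, fun hD h => ?_⟩
    · refine key (Set.range (vecSub Γ) ∪ Set.range (covSub Γ)) ?_ ?_
      · rintro H (⟨i, rfl⟩ | ⟨i, rfl⟩)
        · exact (h i).1
        · exact (h i).2
      · intro k l hkl P hP _ hinf
        refine ⟨rootSub Γ k l hkl, ?_, rfl⟩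
        rw [root_eq_vec hkl]
        refine hinf _ ?_
        rintro H (⟨j, -, rfl⟩ | ⟨i, -, rfl⟩)
        · exact hP (Or.inl ⟨j, rfl⟩)
        · exact hP (Or.inr ⟨i, rfl⟩)
    · refine key (Set.range (lineSub Γ) ∪ Set.range (colineSub Γ)) ?_ ?_
      · rintro H (⟨i, rfl⟩ | ⟨i, rfl⟩)
        · exact (h i).1
        · exact (h i).2
      · intro k l hkl P hP _ hinf
        refine ⟨rootSub Γ k l hkl, ?_, rfl⟩
        rw [root_eq_line hD hkl]
        refine hinf _ ?_
        rintro H (⟨j, -, rfl⟩ | ⟨i, -, rfl⟩)
        · exact hP (Or.inl ⟨j, rfl⟩)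
        · exact hP (Or.inr ⟨i, rfl⟩)

end Pool.Agent.Results.MP_0f6f3f_an.RootSubgroupAlgebras
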