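import Pool.Agent.J4.H1.VN.Hgt2

/-!
# Homomorphisms into the unitary group of `L(Λ)` with uniformly large Fourier coefficients

`L2 G` is the Hilbert space `ℓ²(G)` with basis `delta g`, `lam` and `rho` are the left and the
right translations, `Uni G` is the unitary group of `ℓ²(G)`, and the group von Neumann algebra `L(G)`
is the commutant of the right translations: `InVN T` says that `T` belongs to it, and `InUL v` that
the homomorphism `v` takes its values in the unitary group of `L(Λ)`. The Fourier coefficients of `T`
are the values of `T δ₁`. An isomorphism `θ` of `L(Γ)` onto `L(Λ)` is `θ(x) = U x U⁻¹` for a unitary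
operator `U` of `ℓ²(Γ)` onto `ℓ²(Λ)` (`VNIso Γ Λ`; for groups with infinite conjugacy classes every
isomorphism is of this form).

* `IsBoundedlyGenerated S m`: every element of `Δ` is a product of at most `m` elements of `S`.
* `LargeOn S m c v`, `LargeOnImage S m c θ j`: each `v g`, or `θ(u_{j(g)})`, with `g` in `S` has a
  Fourier coefficient of absolute value more than `1 - (1 - c) / m²`.
* `IsIntertwined c v`: there are a homomorphism `π`, a character `χ` and a unit vector `η`,
  `|η(1)| ≥ c`, with `v(g) η = χ(g) η u_{π(g)}`, that is `v(g) ρ_{π(g)} η = χ(g) η`, for all `g`; and if the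
  image of `π` is relatively icc, then `η` is a unitary `w` of `L(Λ)` and `w⁻¹ v(g) w = χ(g) u_{π(g)}`.
* `IsGroupLikeOnImage θ j`: `w⁻¹ θ(u_{j(d)}) w = χ(d) u_{π(d)}` for all `d` in `Δ`, for a homomorphism
  `π : Δ → Λ`, a character `χ` of `Δ` and a unitary `w` in `L(Λ)`.
* `IsGroupIsoUpToConj θ`: `w⁻¹ θ(u_g) w = χ(g) u_{π(g)}` for all `g` in `Γ`, for an isomorphism of groups
  `π : Γ → Λ`, a character `χ` of `Γ` and a unitary `w` in `L(Λ)`.
* `RelativelyIcc H`: each element of the group other than `1` has infinitely many conjugates by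
  elements of `H`.
* `Rich Γ`: `Γ` contains a positive power of each elementary matrix; `HasElems j`: the image of `j`
  contains `1 + m E_kl`, `m ≠ 0`, for sufficiently many `k ≠ l`, for instance for the pairs
  `(1, 2), …, (n - 1, n), (n, 1)` if `Γ` has no scalar matrix other than `1`.

The proof: if all the `v(g)` have a coefficient of absolute value at least `c > √3/2`, its place
`π(g)` is multiplicative in `g`. The unitary representation `W(g) = v(g) ρ_{π(g)}` satisfies
`|⟨W(g) δ₁, δ₁⟩| ≥ c > 1/√2` for all `g`. The function `r(η) = inf |⟨W(g) δ₁, η⟩|` has a unique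
maximum on the unit sphere, up to multiples, by the inequality for the Gram determinants of three
vectors (the centre of a set of diameter less than `π/2` in the projective Hilbert space), hence the
line of the maximum is invariant. No property (T) is used.
-/

set_option autoImplicit false

namespace Pool.Agent.Results.MP_0f6f3f_an.UniformHeight

open Pool.Agent.K4H1.VN Pool.Agent.J4.H1.VN

/-- Let `Δ` be a group, `S` a subset such that every element of `Δ` is a product of at most `m`
elements of `S` (for instance `S = Δ`, `m = 1`), and `√3/2 < c ≤ 1`. A family of unitaries is large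
on `S` if for each element of `S` it has a Fourier coefficient of absolute value more than
`1 - (1 - c) / m²`.

**(A)** Let `v` be a homomorphism of `Δ` into the unitary group of `L(Λ)`, `Λ` any group, large on `S`.
Then there are a homomorphism `π : Δ → Λ`, a character `χ` and a unit vector `η`, `|η(1)| ≥ c`, with
`v(g) η = χ(g) η u_{π(g)}` for all `g`. If `π(Δ)` is relatively icc in `Λ`, then `η` is a unitary `w` of
`L(Λ)`, and `w⁻¹ v(g) w = χ(g) u_{π(g)}`.

**(B)** Let `θ` be an isomorphism of `L(Γ)` onto `L(Λ)` and `j : Δ → Γ` a homomorphism with relatively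
icc image such that `θ(u_{j(g)})` is large on `S`. Then `w⁻¹ θ(u_{j(d)}) w = χ(d) u_{π(d)}` for all `d` in
`Δ`, for a homomorphism `π : Δ → Λ`, a character `χ` and a unitary `w` of `L(Λ)`.

**(C)** If moreover `Γ` is a subgroup of `SL_n(R)`, `R` a domain of characteristic `0`, `n ≥ 3`, which
contains a positive power of each elementary matrix, and `HasElems j` holds, then
`w⁻¹ θ(u_g) w = χ(g) u_{π(g)}` for all `g` in `Γ`, with an isomorphism of groups `π : Γ → Λ`. -/
theorem result (Δ : Type) [Group Δ] (S : Set Δ) (m : ℕ) (c : ℝ) (hm : 1 ≤ m)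
    (hS : IsBoundedlyGenerated S m) (hc : √3 / 2 < c) (hc1 : c ≤ 1) :
    (∀ (Λ : Type) [Group Λ] (v : Δ →* Uni Λ), InUL v → LargeOn S m c v → IsIntertwined c v) ∧
    (∀ (Γ Λ : Type) [Group Γ] [Group Λ] (θ : VNIso Γ Λ) (j : Δ →* Γ),
      RelativelyIcc (Set.range j) → LargeOnImage S m c θ j → IsGroupLikeOnImage θ j) ∧
    (∀ (R : Type) [CommRing R] [IsDomain R] [CharZero R] (I : Type) [Fintype I] [DecidableEq I]
      (Γ : Subgroup (Matrix.SpecialLinearGroup I R)) (Λ : Type) [Group Λ] (θ : VNIso Γ Λ)
      (j : Δ →* Γ), 3 ≤ Fintype.card I → Rich Γ → HasElems j →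
        LargeOnImage S m c θ j → IsGroupIsoUpToConj θ) := by
  refine ⟨?_, ?_, ?_⟩
  · intro Λ _ v hv h
    exact height_hom hv hm hS hc hc1 h
  · intro Γ Λ _ _ θ j hj h
    exact height_iso (relIcc_of_range hj) hm hS hc hc1 h
  · intro R _ _ _ I _ _ Γ Λ _ θ j hI hΓ hj h
    exact height_mat hI hΓ hj hm hS hc hc1 h

end Pool.Agent.Results.MP_0f6f3f_an.UniformHeight
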